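import Pool.Agent.MP_d80aff_gt.Final

open Pool.MPd80aff Topology

namespace Pool.Agent.Results.MP_d80aff_gt.NotClosedHereditary

/-- Some Tychonoff space with the property (**) has a closed subspace that fails the
property (**). -/
theorem result : ∃ (X : Type) (_ : TopologicalSpace X) (F : Set X),
    T35Space X ∧ StarStar X ∧ IsClosed F ∧ ¬ StarStar F := by
  refine ⟨(ℝ → ℝ) ⊕ CSupp, inferInstance, Set.range Sum.inl, t35_sum,
    starStar_sum csupp_omega csupp_not_compact, isClosed_range_inl, ?_⟩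
  intro h
  have e : (ℝ → ℝ) ≃ₜ (Set.range (Sum.inl : (ℝ → ℝ) → (ℝ → ℝ) ⊕ CSupp)) :=
    IsEmbedding.inl.toHomeomorph
  exact not_starStar_pow ℝ (starStar_congr e.symm h)

end Pool.Agent.Results.MP_d80aff_gt.NotClosedHereditary
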