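import Pool.Agent.MP_d80aff_gt.Final

open Pool.MPd80aff

namespace Pool.Agent.Results.MP_d80aff_gt.NotProductive

/-- The real line has the property (**), and a power of the real line has the property (**) if and
only if the exponent is countable. In particular the class of spaces with the property (**) is not
productive. -/
theorem result : StarStar ℝ ∧ ∀ I : Type, StarStar (I → ℝ) ↔ Countable I :=
  ⟨starStar_of_lindelof ℝ, starStar_pow_iff⟩

end Pool.Agent.Results.MP_d80aff_gt.NotProductive
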